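import Pool.Agent.L7h31.CR.Stm

set_option autoImplicit false

open Pool.Agent.L7h31.CR

namespace Pool.Agent.L7h41.CR

theorem exists_level {k : ℕ} (A : Par k) (c r : ℝ) (hc : 0 < c) (hr : 0 < r) :
    ∃ l : ℤ, c * A.lam ^ (2 * l) < r := by
  have h1 := A.one_lt
  have h0 : 0 < A.lam := by linarith
  obtain ⟨n, hn⟩ := exists_pow_lt_of_lt_one (show (0 : ℝ) < r / c by positivity)
    (show (A.lam ^ 2)⁻¹ < 1 by
      apply inv_lt_one_of_one_lt₀
      nlinarith)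
  refine ⟨-(n : ℤ), ?_⟩
  have h2 : A.lam ^ (2 * (-(n : ℤ))) = ((A.lam ^ 2)⁻¹) ^ n := by
    rw [zpow_mul, zpow_neg, zpow_natCast, inv_pow]
    norm_cast
  rw [h2]
  rw [lt_div_iff₀ hc] at hn
  linarith

/-- membership in a tile of the box of `x` -/
theorem mem_tile {k : ℕ} (A : Par k) (hSD : S_SD) (l : ℤ) (z : Hyp (ZMod (k + 1)))
    (h1 : GG A (l - 1) z.x ≤ z.y ^ 2) (h2 : z.y ^ 2 ≤ GG A l z.x) :
    z ∈ tile A l (fun i => ⌊z.x i / sd A i l⌋) := by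
  refine ⟨fun i => ?_, h1, h2⟩
  have hs : 0 < sd A i l := (hSD k A i l).1
  constructor
  · have := Int.floor_le (z.x i / sd A i l)
    rwa [le_div_iff₀ hs] at this
  · have := (Int.lt_floor_add_one (z.x i / sd A i l)).le
    rwa [div_le_iff₀ hs] at this

theorem wall1_aux (hGAP : S_GAP) (hSD : S_SD) {k : ℕ} (A : Par k) (α : ℝ)
    (β : ZMod (k + 1) → ℝ) (γ : ℝ) (hα : 0 < α) (p : Hyp (ZMod (k + 1)))
    (hp : Phi α β γ p < 0) : ∃ (l : ℤ) (a : ZMod (k + 1) → ℤ) (z1 z2 : Hyp (ZMod (k + 1))),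
      z1 ∈ tile A l a ∧ z2 ∈ tile A l a ∧ Phi α β γ z1 < 0 ∧ 0 < Phi α β γ z2 := by
  classical
  -- the normal form
  set w : ZMod (k + 1) → ℝ := fun i => -β i / (2 * α) with hw
  set ρ : ℝ := (∑ i, w i ^ 2) - γ / α with hρ
  have key : ∀ z : Hyp (ZMod (k + 1)),
      Phi α β γ z = α * ((∑ i, (z.x i - w i) ^ 2) + z.y ^ 2 - ρ) := by
    intro z
    have h1 : ∑ i, (z.x i - w i) ^ 2 = (∑ i, z.x i ^ 2) + (∑ i, w i ^ 2) +
        (∑ i, β i * z.x i) / α := by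
      rw [Finset.sum_div, ← Finset.sum_add_distrib, ← Finset.sum_add_distrib]
      refine Finset.sum_congr rfl fun i _ => ?_
      rw [hw]
      field_simp
      ring
    unfold Phi
    rw [h1, hρ]
    field_simp
    ring
  have hρ0 : 0 < ρ := by
    rw [key p] at hp
    have h1 : (∑ i, (p.x i - w i) ^ 2) + p.y ^ 2 - ρ < 0 := by
      by_contra h
      push Not at h
      exact absurd hp (not_lt.mpr (mul_nonneg hα.le h))
    have h2 : 0 ≤ ∑ i, (p.x i - w i) ^ 2 := Finset.sum_nonneg fun i _ => sq_nonneg _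
    nlinarith [sq_nonneg p.y]
  obtain ⟨l, hl⟩ := exists_level A A.c ρ (hGAP k A 0).1 hρ0
  obtain ⟨hc, hlow, hup, hgap⟩ := hGAP k A l
  set L1 : ℝ := A.c * A.lam ^ (2 * (l - 1)) + (k + 1) * A.lam ^ (2 * (l - 1)) with hL1
  set L2 : ℝ := A.c * A.lam ^ (2 * l) with hL2
  have hlam : 0 < A.lam := by linarith [A.one_lt]
  have hL10 : 0 < L1 := by positivity
  set v : ℝ := (L1 + L2) / 2 with hv
  have hv1 : L1 < v := by rw [hv]; linarith
  have hv2 : v < L2 := by rw [hv]; linarith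
  have hvρ : 0 < ρ - v := by linarith
  set x : ZMod (k + 1) → ℝ := fun i => w i + (if i = 0 then √(ρ - v) else 0) with hx
  have hxs : ∑ i, (x i - w i) ^ 2 = ρ - v := by
    have : ∀ i, (x i - w i) ^ 2 = if i = 0 then ρ - v else 0 := by
      intro i
      rw [hx]
      by_cases hi : i = 0
      · simp [hi, Real.sq_sqrt hvρ.le]
      · simp [hi]
    rw [Finset.sum_congr rfl fun i _ => this i]
    simp
  have hlowx : L2 ≤ GG A l x := hlow x
  have hupx : GG A (l - 1) x ≤ L1 := hup x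
  clear_value x v L1 L2 ρ w
  have hy : ∀ t : ℝ, L1 ≤ t → t ≤ L2 → ∀ (ht : 0 < t),
      (⟨x, √t, Real.sqrt_pos.mpr ht⟩ : Hyp (ZMod (k + 1))) ∈
        tile A l (fun i => ⌊x i / sd A i l⌋) := by
    intro t h1 h2 ht
    have e : (√t) ^ 2 = t := Real.sq_sqrt ht.le
    have m1 : GG A (l - 1) x ≤ (√t) ^ 2 := by rw [e]; exact hupx.trans h1
    have m2 : (√t) ^ 2 ≤ GG A l x := by rw [e]; exact h2.trans hlowx
    exact mem_tile A hSD l ⟨x, √t, Real.sqrt_pos.mpr ht⟩ m1 m2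
  have ht1 : 0 < (L1 + v) / 2 := by linarith
  have ht2 : 0 < (v + L2) / 2 := by linarith
  have m1 := hy ((L1 + v) / 2) (by linarith) (by linarith) ht1
  have m2 := hy ((v + L2) / 2) (by linarith) (by linarith) ht2
  have k1 : Phi α β γ (⟨x, √((L1 + v) / 2), Real.sqrt_pos.mpr ht1⟩ : Hyp (ZMod (k + 1))) < 0 := by
    rw [key]
    show α * ((∑ i, (x i - w i) ^ 2) + √((L1 + v) / 2) ^ 2 - ρ) < 0
    rw [hxs, Real.sq_sqrt ht1.le]
    have : ρ - v + (L1 + v) / 2 - ρ < 0 := by linarith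
    exact mul_neg_of_pos_of_neg hα this
  have k2 : 0 < Phi α β γ (⟨x, √((v + L2) / 2), Real.sqrt_pos.mpr ht2⟩ : Hyp (ZMod (k + 1))) := by
    rw [key]
    show 0 < α * ((∑ i, (x i - w i) ^ 2) + √((v + L2) / 2) ^ 2 - ρ)
    rw [hxs, Real.sq_sqrt ht2.le]
    have : 0 < ρ - v + (v + L2) / 2 - ρ := by linarith
    exact mul_pos hα this
  exact ⟨l, _, _, _, m1, m2, k1, k2⟩

theorem Phi_neg {ι : Type} [Fintype ι] (α : ℝ) (β : ι → ℝ) (γ : ℝ) (z : Hyp ι) :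
    Phi (-α) (fun i => -β i) (-γ) z = -Phi α β γ z := by
  unfold Phi
  have : ∑ i, -β i * z.x i = -∑ i, β i * z.x i := by
    rw [← Finset.sum_neg_distrib]
    exact Finset.sum_congr rfl fun i _ => by ring
  rw [this]
  ring

theorem s_WALL1 : S_GAP → S_SD → S_WALL1 := by
  intro hGAP hSD k A p q α β γ hW hp hq h1 h2
  by_contra hα
  have main : ∃ (l : ℤ) (a : ZMod (k + 1) → ℤ) (z1 z2 : Hyp (ZMod (k + 1))),
      z1 ∈ tile A l a ∧ z2 ∈ tile A l a ∧ Phi α β γ z1 < 0 ∧ 0 < Phi α β γ z2 := by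
    rcases lt_or_gt_of_ne hα with h | h
    · obtain ⟨l, a, z1, z2, m1, m2, k1, k2⟩ := wall1_aux hGAP hSD A (-α) (fun i => -β i) (-γ)
        (by linarith) q (by rw [Phi_neg]; linarith)
      rw [Phi_neg] at k1 k2
      exact ⟨l, a, z2, z1, m2, m1, by linarith, by linarith⟩
    · exact wall1_aux hGAP hSD A α β γ h p hp
  obtain ⟨l, a, z1, z2, m1, m2, k1, k2⟩ := main
  rcases hW.2 (tile A l a) ⟨l, a, rfl⟩ with h | h
  · have := (h1 z2).mp (h m2)
    linarith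
  · have := (h2 z1).mp (h m1)
    linarith

end Pool.Agent.L7h41.CR
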