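import Pool.Agent.L7h41.CR.Wall1

set_option autoImplicit false

open Pool.Agent.L7h31.CR

namespace Pool.Agent.L7h41.CR

theorem sqrt_GG_pos {k : ℕ} (A : Par k) (hGAP : S_GAP) (l : ℤ) (x : ZMod (k + 1) → ℝ) :
    0 < GG A l x := by
  obtain ⟨hc, hlow, -, -⟩ := hGAP k A l
  have hlam : 0 < A.lam := by linarith [A.one_lt]
  have : 0 < A.c * A.lam ^ (2 * l) := by positivity
  exact this.trans_le (hlow x)

/-- the point of the upper surface over `x` -/
noncomputable def top {k : ℕ} (A : Par k) (hGAP : S_GAP) (l : ℤ) (x : ZMod (k + 1) → ℝ) :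
    Hyp (ZMod (k + 1)) := ⟨x, √(GG A l x), Real.sqrt_pos.mpr (sqrt_GG_pos A hGAP l x)⟩

theorem top_mem {k : ℕ} (A : Par k) (hGAP : S_GAP) (l : ℤ) (x : ZMod (k + 1) → ℝ)
    (a : ZMod (k + 1) → ℤ)
    (h : ∀ i, a i * sd A i l ≤ x i ∧ x i ≤ (a i + 1) * sd A i l) :
    top A hGAP l x ∈ tile A l a := by
  obtain ⟨hc, hlow, hup, hgap⟩ := hGAP k A l
  have e : (√(GG A l x)) ^ 2 = GG A l x := Real.sq_sqrt (sqrt_GG_pos A hGAP l x).le
  have m1 : GG A (l - 1) x ≤ (√(GG A l x)) ^ 2 := by
    rw [e]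
    exact (hup x).trans (hgap.le.trans (hlow x))
  have m2 : (√(GG A l x)) ^ 2 ≤ GG A l x := e.le
  exact ⟨h, m1, m2⟩

theorem lin_update {k : ℕ} (β x : ZMod (k + 1) → ℝ) (i : ZMod (k + 1)) (t : ℝ) :
    ∑ j, β j * (Function.update x i (x i + t)) j = (∑ j, β j * x j) + β i * t := by
  classical
  have h : ∀ j, β j * (Function.update x i (x i + t)) j =
      β j * x j + (if j = i then β i * t else 0) := by
    intro j
    by_cases hj : j = i
    · subst hj
      simp
      ring
    · simp [hj]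
  rw [Finset.sum_congr rfl fun j _ => h j, Finset.sum_add_distrib]
  simp

/-- the claim -/
theorem claim {k : ℕ} (A : Par k) (hGAP : S_GAP) (hSD : S_SD) (p q : Hyp (ZMod (k + 1)))
    (hW : Wall (tiles A) p q) (β : ZMod (k + 1) → ℝ) (γ : ℝ)
    (h1 : ∀ z, z ∈ HS p q ↔ Phi 0 β γ z ≤ 0) (h2 : ∀ z, z ∈ HS q p ↔ 0 ≤ Phi 0 β γ z)
    (x : ZMod (k + 1) → ℝ) (hx : (∑ i, β i * x i) + γ = 0) (l : ℤ) (i : ZMod (k + 1))
    (hi : β i ≠ 0) : ∃ N : ℤ, x i = N * sd A i l := by
  classical
  by_contra hN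
  push Not at hN
  set a : ZMod (k + 1) → ℤ := fun j => ⌊x j / sd A j l⌋ with ha
  have hs : ∀ j, 0 < sd A j l := fun j => (hSD k A j l).1
  have hbox : ∀ j, a j * sd A j l ≤ x j ∧ x j < (a j + 1) * sd A j l := by
    intro j
    constructor
    · have := Int.floor_le (x j / sd A j l)
      rwa [le_div_iff₀ (hs j)] at this
    · have := Int.lt_floor_add_one (x j / sd A j l)
      rwa [div_lt_iff₀ (hs j)] at this
  have hlt : a i * sd A i l < x i := lt_of_le_of_ne (hbox i).1 (hN (a i)).symm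
  -- the step
  set δ : ℝ := min (x i - a i * sd A i l) ((a i + 1) * sd A i l - x i) with hδ
  have hδ0 : 0 < δ := lt_min (by linarith) (by linarith [(hbox i).2])
  have hδ1 : δ ≤ x i - a i * sd A i l := min_le_left _ _
  have hδ2 : δ ≤ (a i + 1) * sd A i l - x i := min_le_right _ _
  have hbx : ∀ t : ℝ, |t| ≤ δ → top A hGAP l (Function.update x i (x i + t)) ∈ tile A l a := by
    intro t ht
    rw [abs_le] at ht
    refine top_mem A hGAP l _ a fun j => ?_
    by_cases hj : j = i
    · subst hj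
      rw [Function.update_self]
      constructor <;> linarith [ht.1, ht.2]
    · rw [Function.update_of_ne hj]
      exact ⟨(hbox j).1, (hbox j).2.le⟩
  have hval : ∀ t : ℝ, Phi 0 β γ (top A hGAP l (Function.update x i (x i + t))) = β i * t := by
    intro t
    have e : Phi 0 β γ (top A hGAP l (Function.update x i (x i + t))) =
      (∑ j, β j * (Function.update x i (x i + t)) j) + γ := by
      unfold Phi
      rw [zero_mul, zero_add]
      rfl
    rw [e, lin_update]
    linarith
  have habs : |δ| ≤ δ := (abs_of_pos hδ0).le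
  have habs' : |-δ| ≤ δ := by rw [abs_neg]; exact habs
  rcases hW.2 (tile A l a) ⟨l, a, rfl⟩ with h | h
  · have m1 := (h1 _).mp (h (hbx δ habs))
    have m2 := (h1 _).mp (h (hbx (-δ) habs'))
    rw [hval] at m1 m2
    have : β i * δ = 0 := by linarith
    rcases mul_eq_zero.mp this with h' | h'
    · exact hi h'
    · linarith
  · have m1 := (h2 _).mp (h (hbx δ habs))
    have m2 := (h2 _).mp (h (hbx (-δ) habs'))
    rw [hval] at m1 m2
    have : β i * δ = 0 := by linarith
    rcases mul_eq_zero.mp this with h' | h'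
    · exact hi h'
    · linarith

theorem exists_big {k : ℕ} (A : Par k) (r : ℝ) : ∃ l : ℤ, r < A.lam ^ l := by
  obtain ⟨n, hn⟩ := pow_unbounded_of_one_lt r A.one_lt
  exact ⟨n, by exact_mod_cast hn⟩

theorem s_WALL2 : S_PLI → S_WALL1 → S_GAP → S_SD → S_WALL2 := by
  classical
  intro hPLI hW1 hGAP hSD k A p q hW
  obtain ⟨α, β, γ, hne, hp, hq, h1, h2, h3⟩ := hPLI _ p q hW.1
  have hα : α = 0 := hW1 k A p q α β γ hW hp hq h1 h2
  subst hα
  have hβ : β ≠ 0 := by
    rcases hne with h | h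
    · exact absurd rfl h
    · exact h
  obtain ⟨i, hi⟩ := Function.ne_iff.mp hβ
  have hi' : β i ≠ 0 := hi
  -- a zero
  have hz0 : (∑ j, β j * (Function.update (0 : ZMod (k + 1) → ℝ) i (0 + -γ / β i)) j) + γ = 0 := by
    have := lin_update β 0 i (-γ / β i)
    rw [Pi.zero_apply] at this
    rw [this]
    simp only [Pi.zero_apply, mul_zero, Finset.sum_const_zero]
    field_simp
    ring
  set x0 : ZMod (k + 1) → ℝ := Function.update (0 : ZMod (k + 1) → ℝ) i (0 + -γ / β i) with hx0
  have hx0i : x0 i = -γ / β i := by rw [hx0, Function.update_self, zero_add]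
  have hcl := claim A hGAP hSD p q hW β γ h1 h2
  -- only one nonzero coefficient
  have honly : ∀ j, j ≠ i → β j = 0 := by
    intro j hj
    by_contra hbj
    have hs : 0 < sd A i 0 := (hSD k A i 0).1
    obtain ⟨N0, hN0⟩ := hcl x0 hz0 0 i hi'
    -- the second zero
    have hz1 : (∑ m, β m * (Function.update (Function.update x0 i (x0 i + sd A i 0 / 2)) j
        ((Function.update x0 i (x0 i + sd A i 0 / 2)) j + -(β i * (sd A i 0 / 2)) / β j)) m) + γ
        = 0 := by
      rw [lin_update β (Function.update x0 i (x0 i + sd A i 0 / 2)) j, lin_update β x0 i]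
      have : β j * (-(β i * (sd A i 0 / 2)) / β j) = -(β i * (sd A i 0 / 2)) := by
        field_simp
      rw [this]
      linarith
    obtain ⟨N1, hN1⟩ := hcl _ hz1 0 i hi'
    rw [Function.update_of_ne (Ne.symm hj), Function.update_self, hN0] at hN1
    have e : ((N1 - N0 : ℤ) : ℝ) * 2 = 1 := by
      push_cast
      have : (N1 : ℝ) * sd A i 0 - N0 * sd A i 0 = sd A i 0 / 2 := by linarith
      have h4 : ((N1 : ℝ) - N0) * 2 * sd A i 0 = 1 * sd A i 0 := by linarith
      exact mul_right_cancel₀ hs.ne' h4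
    have e' : (N1 - N0) * 2 = (1 : ℤ) := by exact_mod_cast e
    omega
  -- the constant is zero
  have hγ : -γ / β i = 0 := by
    obtain ⟨l, hl⟩ := exists_big A (|-γ / β i|)
    obtain ⟨N, hN⟩ := hcl x0 hz0 l i hi'
    rw [hx0i] at hN
    have hs := hSD k A i l
    have h4 : |(-γ / β i)| < sd A i l := hl.trans_le hs.2.1.1
    rw [hN, abs_mul, abs_of_pos hs.1] at h4
    have h5 : |(N : ℝ)| < 1 := by
      by_contra h6
      push Not at h6
      nlinarith [hs.1]
    have h6 : N = 0 := by
      have : |N| < 1 := by exact_mod_cast h5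
      exact Int.abs_lt_one_iff.mp this
    rw [hN, h6]
    simp
  have hγ0 : γ = 0 := by
    rcases div_eq_zero_iff.mp hγ with h | h
    · linarith
    · exact absurd h hi'
  refine ⟨i, fun z => ?_⟩
  rw [h3 z]
  have e : Phi 0 β γ z = β i * z.x i := by
    unfold Phi
    rw [hγ0, zero_mul, zero_add, add_zero]
    rw [Finset.sum_eq_single i]
    · intro j _ hj
      rw [honly j hj, zero_mul]
    · intro h
      exact absurd (Finset.mem_univ i) h
  rw [e]
  constructor
  · intro h
    rcases mul_eq_zero.mp h with h' | h'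
    · exact absurd h' hi'
    · exact h'
  · intro h
    rw [h, mul_zero]

end Pool.Agent.L7h41.CR
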