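import Pool.Agent.L7h31.CR.Stm

set_option autoImplicit false

open Pool.Agent.L7h31.CR

namespace Pool.Agent.L7h41.CR

/-! ### finitely many half-spaces -/

/-- the set is a half-space -/
def IsHalf {ι : Type} [Fintype ι] (Q : Set (Hyp ι)) : Prop :=
  ∃ p q : Hyp ι, p ≠ q ∧ ∀ z, z ∈ HS p q ↔ z ∈ Q

theorem finite_inter {ι κ : Type} [Fintype ι] [Fintype κ] (Q : κ → Set (Hyp ι))
    (h : ∀ j, IsHalf (Q j)) (P : Set (Hyp ι)) (hP : ∀ z, z ∈ P ↔ ∀ j, z ∈ Q j) :
    ∃ F : Finset (Hyp ι × Hyp ι), (∀ c ∈ F, c.1 ≠ c.2) ∧ P = {z | ∀ c ∈ F, z ∈ HS c.1 c.2} := by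
  classical
  choose p q hne hpq using h
  refine ⟨Finset.univ.image fun j => (p j, q j), ?_, ?_⟩
  · intro c hc
    obtain ⟨j, -, rfl⟩ := Finset.mem_image.mp hc
    exact hne j
  · ext z
    rw [hP z]
    constructor
    · intro hz c hc
      obtain ⟨j, -, rfl⟩ := Finset.mem_image.mp hc
      exact (hpq j z).mpr (hz j)
    · intro hz j
      exact (hpq j z).mp (hz (p j, q j) (Finset.mem_image.mpr ⟨j, Finset.mem_univ j, rfl⟩))

theorem half_of {ι : Type} [Fintype ι] (hPL : S_PL) (Q : Set (Hyp ι)) (α : ℝ) (β : ι → ℝ) (γ : ℝ)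
    (h0 : α ≠ 0 ∨ β ≠ 0) (z0 : Hyp ι) (hz : Phi α β γ z0 = 0)
    (hQ : ∀ z, z ∈ Q ↔ Phi α β γ z ≤ 0) : IsHalf Q := by
  obtain ⟨p, q, hne, h1, -⟩ := hPL ι α β γ h0 ⟨z0, hz⟩
  exact ⟨p, q, hne, fun z => (h1 z).trans (hQ z).symm⟩

theorem half_low {ι : Type} [Fintype ι] (hPL : S_PL) (i : ι) (t : ℝ) :
    IsHalf {z : Hyp ι | t ≤ z.x i} := by
  classical
  have e : ∀ z : Hyp ι, Phi 0 (fun j => if j = i then -1 else 0) t z = t - z.x i := by
    intro z
    unfold Phi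
    have : ∀ j, (if j = i then (-1 : ℝ) else 0) * z.x j = if j = i then -z.x i else 0 := by
      intro j
      by_cases hj : j = i
      · subst hj; simp
      · simp [hj]
    rw [Finset.sum_congr rfl fun j _ => this j]
    simp
    ring
  refine half_of hPL _ 0 (fun j => if j = i then -1 else 0) t (Or.inr ?_)
    ⟨fun _ => t, 1, one_pos⟩ ?_ fun z => ?_
  · intro h
    have := congrFun h i
    simp at this
  · rw [e]; simp
  · rw [e]
    show t ≤ z.x i ↔ _
    constructor <;> intro h <;> linarith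

theorem half_upp {ι : Type} [Fintype ι] (hPL : S_PL) (i : ι) (t : ℝ) :
    IsHalf {z : Hyp ι | z.x i ≤ t} := by
  classical
  have e : ∀ z : Hyp ι, Phi 0 (fun j => if j = i then 1 else 0) (-t) z = z.x i - t := by
    intro z
    unfold Phi
    have : ∀ j, (if j = i then (1 : ℝ) else 0) * z.x j = if j = i then z.x i else 0 := by
      intro j
      by_cases hj : j = i
      · subst hj; simp
      · simp [hj]
    rw [Finset.sum_congr rfl fun j _ => this j]
    simp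
    ring
  refine half_of hPL _ 0 (fun j => if j = i then 1 else 0) (-t) (Or.inr ?_)
    ⟨fun _ => t, 1, one_pos⟩ ?_ fun z => ?_
  · intro h
    have := congrFun h i
    simp at this
  · rw [e]; simp
  · rw [e]
    show z.x i ≤ t ↔ _
    constructor <;> intro h <;> linarith

/-- `y^2 - (r + ∑ (x_i - u_i) (v_i - x_i))` as a `Phi` -/
theorem Phi_quad {ι : Type} [Fintype ι] (r : ℝ) (u v : ι → ℝ) (z : Hyp ι) :
    Phi 1 (fun i => -(u i + v i)) ((∑ i, u i * v i) - r) z =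
      z.y ^ 2 - (r + ∑ i, (z.x i - u i) * (v i - z.x i)) := by
  unfold Phi
  have : ∑ i, (z.x i - u i) * (v i - z.x i) =
      -(∑ i, z.x i ^ 2) - (∑ i, -(u i + v i) * z.x i) - ∑ i, u i * v i := by
    rw [← Finset.sum_neg_distrib, ← Finset.sum_sub_distrib, ← Finset.sum_sub_distrib]
    exact Finset.sum_congr rfl fun i _ => by ring
  rw [this]
  ring

theorem Phi_neg' {ι : Type} [Fintype ι] (α : ℝ) (β : ι → ℝ) (γ : ℝ) (z : Hyp ι) :
    Phi (-α) (fun i => -β i) (-γ) z = -Phi α β γ z := by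
  unfold Phi
  have : ∑ i, -β i * z.x i = -∑ i, β i * z.x i := by
    rw [← Finset.sum_neg_distrib]
    exact Finset.sum_congr rfl fun i _ => by ring
  rw [this]
  ring

theorem half_top {ι : Type} [Fintype ι] (hPL : S_PL) (r : ℝ) (hr : 0 < r) (u v : ι → ℝ) :
    IsHalf {z : Hyp ι | z.y ^ 2 ≤ r + ∑ i, (z.x i - u i) * (v i - z.x i)} := by
  refine half_of hPL _ 1 (fun i => -(u i + v i)) ((∑ i, u i * v i) - r) (Or.inl one_ne_zero)
    ⟨u, √r, Real.sqrt_pos.mpr hr⟩ ?_ fun z => ?_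
  · rw [Phi_quad]
    have e : (√r) ^ 2 = r := Real.sq_sqrt hr.le
    simp [e]
  · rw [Phi_quad]
    show z.y ^ 2 ≤ _ ↔ _
    constructor <;> intro h <;> linarith

theorem half_bot {ι : Type} [Fintype ι] (hPL : S_PL) (r : ℝ) (hr : 0 < r) (u v : ι → ℝ) :
    IsHalf {z : Hyp ι | r + ∑ i, (z.x i - u i) * (v i - z.x i) ≤ z.y ^ 2} := by
  refine half_of hPL _ (-1) (fun i => -(-(u i + v i))) (-((∑ i, u i * v i) - r))
    (Or.inl (by norm_num)) ⟨u, √r, Real.sqrt_pos.mpr hr⟩ ?_ fun z => ?_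
  · rw [Phi_neg', Phi_quad]
    have e : (√r) ^ 2 = r := Real.sq_sqrt hr.le
    simp [e]
  · rw [Phi_neg', Phi_quad]
    show r + _ ≤ z.y ^ 2 ↔ _
    constructor <;> intro h <;> linarith

/-! ### topology -/

theorem isInducing (ι : Type) : Topology.IsInducing (fun p : Hyp ι => (p.x, p.y)) := ⟨rfl⟩

theorem cont_x (ι : Type) : Continuous (fun p : Hyp ι => p.x) :=
  continuous_fst.comp (isInducing ι).continuous

theorem cont_y (ι : Type) : Continuous (fun p : Hyp ι => p.y) :=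
  continuous_snd.comp (isInducing ι).continuous

theorem tile_compact (hGAP : S_GAP) (hGC : S_GCONT) (hSD : S_SD) (k : ℕ) (A : Par k) (l : ℤ)
    (a : ZMod (k + 1) → ℤ) : IsCompact (tile A l a) := by
  rw [(isInducing (ZMod (k + 1))).isCompact_iff]
  obtain ⟨hc, hlow, -, -⟩ := hGAP k A (l - 1)
  obtain ⟨-, -, hup, -⟩ := hGAP k A (l + 1)
  have hlam : 0 < A.lam := by linarith [A.one_lt]
  have el : l + 1 - 1 = l := by ring
  rw [el] at hup
  set r : ℝ := A.c * A.lam ^ (2 * (l - 1)) with hr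
  have hr0 : 0 < r := by positivity
  set U : ℝ := A.c * A.lam ^ (2 * l) + (k + 1) * A.lam ^ (2 * l) with hU
  have himg : (fun p : Hyp (ZMod (k + 1)) => (p.x, p.y)) '' tile A l a =
      {w : (ZMod (k + 1) → ℝ) × ℝ | √r ≤ w.2 ∧
        (∀ i, a i * sd A i l ≤ w.1 i ∧ w.1 i ≤ (a i + 1) * sd A i l) ∧
        GG A (l - 1) w.1 ≤ w.2 ^ 2 ∧ w.2 ^ 2 ≤ GG A l w.1} := by
    ext w
    constructor
    · rintro ⟨z, ⟨h1, h2, h3⟩, rfl⟩
      refine ⟨?_, h1, h2, h3⟩
      rw [Real.sqrt_le_left z.pos.le]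
      exact (hlow z.x).trans h2
    · rintro ⟨h0, h1, h2, h3⟩
      have hw : 0 < w.2 := (Real.sqrt_pos.mpr hr0).trans_le h0
      exact ⟨⟨w.1, w.2, hw⟩, ⟨h1, h2, h3⟩, rfl⟩
  rw [himg]
  have hG1 : Continuous (fun w : (ZMod (k + 1) → ℝ) × ℝ => GG A (l - 1) w.1) :=
    (hGC k A (l - 1)).comp continuous_fst
  have hG2 : Continuous (fun w : (ZMod (k + 1) → ℝ) × ℝ => GG A l w.1) :=
    (hGC k A l).comp continuous_fst
  refine IsCompact.of_isClosed_subset
    ((isCompact_Icc (a := fun i => (a i : ℝ) * sd A i l)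
      (b := fun i => ((a i : ℝ) + 1) * sd A i l)).prod (isCompact_Icc (a := 0) (b := √U))) ?_ ?_
  · have c1 : IsClosed {w : (ZMod (k + 1) → ℝ) × ℝ | √r ≤ w.2} :=
      isClosed_le continuous_const continuous_snd
    have c2 : IsClosed {w : (ZMod (k + 1) → ℝ) × ℝ |
        ∀ i, a i * sd A i l ≤ w.1 i ∧ w.1 i ≤ (a i + 1) * sd A i l} := by
      have hxi : ∀ i, Continuous (fun w : (ZMod (k + 1) → ℝ) × ℝ => w.1 i) :=
        fun i => (continuous_apply i).comp continuous_fst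
      have e1 : {w : (ZMod (k + 1) → ℝ) × ℝ |
          ∀ i, a i * sd A i l ≤ w.1 i ∧ w.1 i ≤ (a i + 1) * sd A i l} =
        ⋂ i, {w : (ZMod (k + 1) → ℝ) × ℝ |
          a i * sd A i l ≤ w.1 i ∧ w.1 i ≤ (a i + 1) * sd A i l} := by
        ext w
        simp
      rw [e1]
      refine isClosed_iInter fun i => ?_
      exact (isClosed_le continuous_const (hxi i)).inter (isClosed_le (hxi i) continuous_const)
    have c3 : IsClosed {w : (ZMod (k + 1) → ℝ) × ℝ | GG A (l - 1) w.1 ≤ w.2 ^ 2} :=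
      isClosed_le hG1 (by fun_prop)
    have c4 : IsClosed {w : (ZMod (k + 1) → ℝ) × ℝ | w.2 ^ 2 ≤ GG A l w.1} :=
      isClosed_le (by fun_prop) hG2
    exact c1.inter (c2.inter (c3.inter c4))
  · rintro w ⟨h0, h1, h2, h3⟩
    have hw : 0 ≤ w.2 := (Real.sqrt_nonneg r).trans h0
    refine ⟨⟨fun i => (h1 i).1, fun i => (h1 i).2⟩, hw, ?_⟩
    exact Real.le_sqrt_of_sq_le (h3.trans (hup w.1))

theorem tile_interior (hGAP : S_GAP) (hGC : S_GCONT) (hSD : S_SD) (k : ℕ) (A : Par k) (l : ℤ)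
    (a : ZMod (k + 1) → ℤ) : (interior (tile A l a)).Nonempty := by
  obtain ⟨hc, hlow, hup, hgap⟩ := hGAP k A l
  have hlam : 0 < A.lam := by linarith [A.one_lt]
  set L1 : ℝ := A.c * A.lam ^ (2 * (l - 1)) + (k + 1) * A.lam ^ (2 * (l - 1)) with hL1
  set L2 : ℝ := A.c * A.lam ^ (2 * l) with hL2
  have hL10 : 0 < L1 := by positivity
  have hv : 0 < (L1 + L2) / 2 := by linarith
  set x : ZMod (k + 1) → ℝ := fun i => ((a i : ℝ) + 1 / 2) * sd A i l with hx
  set z : Hyp (ZMod (k + 1)) := ⟨x, √((L1 + L2) / 2), Real.sqrt_pos.mpr hv⟩ with hz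
  set O : Set (Hyp (ZMod (k + 1))) :=
    {z | (∀ i, a i * sd A i l < z.x i ∧ z.x i < (a i + 1) * sd A i l) ∧
      GG A (l - 1) z.x < z.y ^ 2 ∧ z.y ^ 2 < GG A l z.x} with hO
  have hOo : IsOpen O := by
    have hcx := cont_x (ZMod (k + 1))
    have hcy := cont_y (ZMod (k + 1))
    have hxi : ∀ i, Continuous (fun p : Hyp (ZMod (k + 1)) => p.x i) :=
      fun i => (continuous_apply i).comp hcx
    have c2 : IsOpen {z : Hyp (ZMod (k + 1)) |
        ∀ i, a i * sd A i l < z.x i ∧ z.x i < (a i + 1) * sd A i l} := by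
      have e1 : {z : Hyp (ZMod (k + 1)) |
          ∀ i, a i * sd A i l < z.x i ∧ z.x i < (a i + 1) * sd A i l} =
        ⋂ i, {z : Hyp (ZMod (k + 1)) | a i * sd A i l < z.x i ∧ z.x i < (a i + 1) * sd A i l} := by
        ext w
        simp
      rw [e1]
      refine isOpen_iInter_of_finite fun i => ?_
      exact (isOpen_lt continuous_const (hxi i)).inter (isOpen_lt (hxi i) continuous_const)
    have c3 : IsOpen {z : Hyp (ZMod (k + 1)) | GG A (l - 1) z.x < z.y ^ 2} :=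
      isOpen_lt ((hGC k A (l - 1)).comp hcx) (hcy.pow 2)
    have c4 : IsOpen {z : Hyp (ZMod (k + 1)) | z.y ^ 2 < GG A l z.x} :=
      isOpen_lt (hcy.pow 2) ((hGC k A l).comp hcx)
    exact c2.inter (c3.inter c4)
  have hsub : O ⊆ tile A l a := by
    rintro w ⟨h1, h2, h3⟩
    exact ⟨fun i => ⟨(h1 i).1.le, (h1 i).2.le⟩, h2.le, h3.le⟩
  refine ⟨z, mem_interior.mpr ⟨O, hsub, hOo, ?_⟩⟩
  have e : (√((L1 + L2) / 2)) ^ 2 = (L1 + L2) / 2 := Real.sq_sqrt hv.le
  have m1 : GG A (l - 1) x < (√((L1 + L2) / 2)) ^ 2 := by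
    rw [e]
    exact (hup x).trans_lt (by linarith)
  have m2 : (√((L1 + L2) / 2)) ^ 2 < GG A l x := by
    rw [e]
    exact lt_of_lt_of_le (by linarith) (hlow x)
  refine ⟨fun i => ?_, m1, m2⟩
  have hs : 0 < sd A i l := (hSD k A i l).1
  show (a i : ℝ) * sd A i l < ((a i : ℝ) + 1 / 2) * sd A i l ∧
    ((a i : ℝ) + 1 / 2) * sd A i l < ((a i : ℝ) + 1) * sd A i l
  constructor <;> nlinarith

theorem s_POLY : S_EQT → S_PL → S_GAP → S_GCONT → S_SD → S_POLY := by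
  intro hEQ hPL hGAP hGC hSD k A l a
  refine ⟨tile_compact hGAP hGC hSD k A l a, tile_interior hGAP hGC hSD k A l a, ?_⟩
  have hlam : 0 < A.lam := by linarith [A.one_lt]
  have hc : 0 < A.c := (hGAP k A 0).1
  set b : Fin 2 → ZMod (k + 1) → ℤ := fun e i =>
    if i = ((l - 1 : ℤ) : ZMod (k + 1)) then 2 * a i + (e : ℤ) else a i with hb
  let Q : (ZMod (k + 1) ⊕ ZMod (k + 1)) ⊕ (Unit ⊕ Fin 2) → Set (Hyp (ZMod (k + 1))) :=
    Sum.elim
      (Sum.elim (fun i => {z | a i * sd A i l ≤ z.x i}) (fun i => {z | z.x i ≤ (a i + 1) * sd A i l}))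
      (Sum.elim (fun _ => {z | z.y ^ 2 ≤ A.c * A.lam ^ (2 * l) +
          ∑ i, (z.x i - a i * sd A i l) * ((a i + 1) * sd A i l - z.x i)})
        (fun e => {z | A.c * A.lam ^ (2 * (l - 1)) +
          ∑ i, (z.x i - (b e i : ℝ) * sd A i (l - 1)) *
            (((b e i : ℝ) + 1) * sd A i (l - 1) - z.x i) ≤ z.y ^ 2}))
  refine finite_inter Q ?_ _ ?_
  · rintro ((i | i) | (i | e))
    · exact half_low hPL i _
    · exact half_upp hPL i _
    · exact half_top hPL _ (by positivity) (fun i => a i * sd A i l) (fun i => (a i + 1) * sd A i l)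
    · exact half_bot hPL _ (by positivity) (fun i => (b e i : ℝ) * sd A i (l - 1))
        (fun i => ((b e i : ℝ) + 1) * sd A i (l - 1))
  · intro z
    rw [hEQ k A l a z]
    constructor
    · rintro ⟨h1, h2, h3⟩ ((i | i) | (i | e))
      · exact (h1 i).1
      · exact (h1 i).2
      · exact h2
      · exact h3 e
    · intro h
      exact ⟨fun i => ⟨h (Sum.inl (Sum.inl i)), h (Sum.inl (Sum.inr i))⟩, h (Sum.inr (Sum.inl ())),
        fun e => h (Sum.inr (Sum.inr e))⟩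

end Pool.Agent.L7h41.CR
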